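import Mathlib
import Pool.Agent.Lib.MP_f8e9b8_lc.Fin

/-!
# MP_f8e9b8_lc : a regular, non-measurable cardinal of `K(ℝ)^C` of countable cofinality

The equivalence of Q1 fails in a transitive model `N` of `ZFC`.  The model `N` is a forcing
extension, without new reals, of the least constructible model `M` of `ZFC`; there are no mice over
the reals with extenders in `N`, so that `K(ℝ)^C = L(ℝ)^C = M`, and the Chang model of `N` is `N`.
-/

set_option autoImplicit false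

namespace Pool.Agent.Lib.MP_f8e9b8_lc.Old.NambaFailure

open Pool.Agent.CR (V nat IsTransModelZFC)
open Pool.Agent.CM (IsTransModelZF)

/-- The set of all natural numbers. -/
noncomputable def omega : V := ZFSet.range nat

/-- The sequence `s` as a set: the set of the pairs `(n, s n)`. -/
noncomputable def seqSet (s : ℕ → V) : V := ZFSet.range (fun n => ZFSet.pair (nat n) (s n))

/-- `W` is an inner model of `N`: a transitive model of `ZF` which is contained in `N` and contains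
all ordinals of `N`. -/
def IsInnerModel (N W : Set V) : Prop :=
  W ⊆ N ∧ IsTransModelZF W ∧ ∀ α ∈ N, α.IsOrdinal → α ∈ W

/-- `C` is the Chang model of `N`: the least inner model of `N` which contains all countable
sequences of ordinals of `N`. -/
def IsChangModel (N C : Set V) : Prop :=
  IsInnerModel N C ∧ (∀ s : ℕ → V, (∀ n, (s n).IsOrdinal) → seqSet s ∈ N → seqSet s ∈ C) ∧
    ∀ W, IsInnerModel N W →
      (∀ s : ℕ → V, (∀ n, (s n).IsOrdinal) → seqSet s ∈ N → seqSet s ∈ W) → C ⊆ W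

/-- `K` is the model `L(ℝ)` of `N`: the least inner model of `N` which contains all reals (subsets
of `ω`) of `N`. -/
def IsLOfReals (N K : Set V) : Prop :=
  IsInnerModel N K ∧ (∀ x ∈ N, x ⊆ omega → x ∈ K) ∧
    ∀ W, IsInnerModel N W → (∀ x ∈ N, x ⊆ omega → x ∈ W) → K ⊆ W

/-- `κ` is an uncountable regular cardinal of `K`. -/
def IsRegularIn (K : Set V) (κ : V) : Prop :=
  κ ∈ K ∧ κ.IsOrdinal ∧ omega ∈ κ ∧
    ∀ μ ∈ κ, ∀ f ∈ K, ZFSet.IsFunc μ κ f → ∃ β ∈ κ, ∀ x y, ZFSet.pair x y ∈ f → y ∈ β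

/-- `κ` is a measurable cardinal of `K`: in `K` there is a `κ`-complete nonprincipal ultrafilter
`U` on `κ`. -/
def IsMeasurableIn (K : Set V) (κ : V) : Prop :=
  κ ∈ K ∧ κ.IsOrdinal ∧ omega ∈ κ ∧ ∃ U ∈ K, (∀ X ∈ U, X ⊆ κ) ∧ κ ∈ U ∧ ∅ ∉ U ∧
    (∀ X ∈ U, ∀ Y ∈ K, X ⊆ Y → Y ⊆ κ → Y ∈ U) ∧
    (∀ X ∈ K, X ⊆ κ → X ∈ U ∨ κ \ X ∈ U) ∧
    (∀ ξ ∈ κ, ({ξ} : V) ∉ U) ∧
    ∀ μ ∈ κ, ∀ f ∈ K, ZFSet.IsFunc μ U f →
      ZFSet.sep (fun β => ∀ x y, ZFSet.pair x y ∈ f → β ∈ y) κ ∈ U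

/-- `κ` is uncountable in `N`: no function of `N` maps `ω` onto `κ`. -/
def IsUncountableIn (N : Set V) (κ : V) : Prop :=
  ∀ f ∈ N, ZFSet.IsFunc omega κ f → ∃ ξ ∈ κ, ∀ n, ZFSet.pair n ξ ∉ f

/-- `κ` has countable cofinality in `N`: some sequence of `N` is cofinal in `κ`. -/
def HasCofOmega (N : Set V) (κ : V) : Prop :=
  ∃ s : ℕ → V, (∀ n, s n ∈ κ) ∧ seqSet s ∈ N ∧ ∀ β ∈ κ, ∃ n, β ∈ s n

/-- There is a countable transitive model `M` of `ZFC` such that for every ordinal `α` of `M` there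
are a countable transitive model `N` of `ZFC` and `κ > α` such that `N` is its own Chang model, `M`
is the model `L(ℝ)` of `N`, no element of `N` is a transitive model of `ZF` (so that there is no
mouse over the reals with an extender and `K(ℝ)^C = L(ℝ)^C = M`), and `κ` is uncountable in `N`,
regular in `M`, of countable cofinality in `N` and not measurable in `M`. -/
theorem result : ∃ M : Set V, M.Countable ∧ IsTransModelZFC M ∧
    ∀ α ∈ M, α.IsOrdinal → ∃ (N : Set V) (κ : V),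
      N.Countable ∧ IsTransModelZFC N ∧
      IsChangModel N N ∧ IsLOfReals N M ∧ (∀ x ∈ N, ¬ IsTransModelZF {y | y ∈ x}) ∧
      α ∈ κ ∧ IsUncountableIn N κ ∧ IsRegularIn M κ ∧ HasCofOmega N κ ∧ ¬ IsMeasurableIn M κ := by
  obtain ⟨M, h1, h2, h3⟩ := Pool.Agent.CM.main_thm
  refine ⟨M, h1, h2, fun α hα hαo => ?_⟩
  obtain ⟨N, κ, s, a1, a2, a3, a4, a5, a6, a7, a8, a9, a10, a11, a12⟩ := h3 α hα hαo
  exact ⟨N, κ, a1, a2, a3, a4, a5, a6, a9, a7, ⟨s, a10, a11, a12⟩, a8⟩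

end Pool.Agent.Lib.MP_f8e9b8_lc.Old.NambaFailure
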